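import Pool.Agent.Helper62.PM.St4

set_option autoImplicit false

open MeasureTheory Metric Set Filter Topology
open scoped RealInnerProductSpace ContDiff

namespace Pool.Agent.Helper66.PM

open Pool.Agent.Helper62.PM
open Pool.Agent.Helper62.Mink

private theorem prim_bd (ψ : ℝ → ℝ) (hψ : Continuous ψ) (h0 : ∀ t, 0 ≤ ψ t) (t : ℝ) (ht : t ∈ Icc (-1 : ℝ) 1) :
    0 ≤ ∫ s in (0 : ℝ)..t, s * ψ s ∧ ∫ s in (0 : ℝ)..t, s * ψ s ≤ ∫ s in (-1 : ℝ)..1, |s| * ψ s := by
  have hcA : Continuous (fun s : ℝ => |s| * ψ s) := continuous_abs.mul hψ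
  have hnn : ∀ s : ℝ, 0 ≤ |s| * ψ s := fun s => mul_nonneg (abs_nonneg s) (h0 s)
  rcases le_total 0 t with h | h
  · have e : ∫ s in (0 : ℝ)..t, s * ψ s = ∫ s in (0 : ℝ)..t, |s| * ψ s := by
      refine intervalIntegral.integral_congr fun s hs => ?_
      rw [uIcc_of_le h] at hs
      show s * ψ s = |s| * ψ s
      rw [abs_of_nonneg hs.1]
    rw [e]
    refine ⟨intervalIntegral.integral_nonneg h fun s _ => hnn s, ?_⟩
    exact intervalIntegral.integral_mono_interval (by norm_num) h ht.2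
      (Filter.Eventually.of_forall fun s => hnn s) (hcA.intervalIntegrable _ _)
  · have e : ∫ s in (0 : ℝ)..t, s * ψ s = ∫ s in t..(0 : ℝ), |s| * ψ s := by
      rw [intervalIntegral.integral_symm, ← intervalIntegral.integral_neg]
      refine intervalIntegral.integral_congr fun s hs => ?_
      rw [uIcc_of_le h] at hs
      show -(s * ψ s) = |s| * ψ s
      rw [abs_of_nonpos hs.2]
      ring
    rw [e]
    refine ⟨intervalIntegral.integral_nonneg h fun s _ => hnn s, ?_⟩
    exact intervalIntegral.integral_mono_interval ht.1 h (by norm_num)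
      (Filter.Eventually.of_forall fun s => hnn s) (hcA.intervalIntegrable _ _)

theorem hNC : StNB → StNC := by
  intro hNB n e P N T ψ hn he hP hN hzP hzN hG hψ h0
  have hψc : Continuous ψ := hψ.continuous
  set c : ℝ := ∫ s in (-1 : ℝ)..1, |s| * ψ s with hc
  have hfc : Continuous (fun s : ℝ => s * ψ s) := continuous_id.mul hψc
  let k : ℝ → ℝ := fun t => c - ∫ s in (0 : ℝ)..t, s * ψ s
  have hk : ∀ t, k t = c - ∫ s in (0 : ℝ)..t, s * ψ s := fun t => rfl
  have hkd : ∀ t, HasDerivAt k (-(t * ψ t)) t := by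
    intro t
    have h1 : HasDerivAt (fun u => ∫ s in (0 : ℝ)..u, s * ψ s) (t * ψ t) t :=
      intervalIntegral.integral_hasDerivAt_right (hfc.intervalIntegrable _ _)
        (hfc.stronglyMeasurableAtFilter _ _) hfc.continuousAt
    have h2 := h1.const_sub c
    exact h2
  have hkc : Continuous k := continuous_iff_continuousAt.2 fun t => (hkd t).continuousAt
  have hk0 : ∀ t ∈ Icc (-1 : ℝ) 1, 0 ≤ k t := by
    intro t ht
    rw [hk]
    have := (prim_bd ψ hψc h0 t ht).2
    linarith
  have hk1 : ∀ t ∈ Icc (-1 : ℝ) 1, k t ≤ c := by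
    intro t ht
    rw [hk]
    have := (prim_bd ψ hψc h0 t ht).1
    linarith
  have hmem : ∀ w : sphere (0 : E n) 1, (inner ℝ e (w : E n) : ℝ) ∈ Icc (-1 : ℝ) 1 := by
    intro w
    have h1 : |(inner ℝ e (w : E n) : ℝ)| ≤ ‖e‖ * ‖(w : E n)‖ := abs_real_inner_le_norm _ _
    have h2 : ‖(w : E n)‖ = 1 := by simp
    rw [he, h2, one_mul] at h1
    exact abs_le.1 h1
  have hu : Continuous (fun w : sphere (0 : E n) 1 => (inner ℝ e (w : E n) : ℝ)) :=
    continuous_const.inner continuous_subtype_val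
  have hA : Continuous (fun w : sphere (0 : E n) 1 => (1 - (inner ℝ e (w : E n) : ℝ) ^ 2) * ψ (inner ℝ e (w : E n))) :=
    (continuous_const.sub (hu.pow 2)).mul (hψc.comp hu)
  have hK : Continuous (fun w : sphere (0 : E n) 1 => k (inner ℝ e (w : E n))) := hkc.comp hu
  have hK' : Continuous (fun w : sphere (0 : E n) 1 => ((n : ℝ) - 1) * k (inner ℝ e (w : E n))) :=
    continuous_const.mul hK
  have hInt : ∀ (μ : Measure (sphere (0 : E n) 1)) (_ : IsFiniteMeasure μ) (f : sphere (0 : E n) 1 → ℝ),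
      Continuous f → Integrable f μ := by
    intro μ hμ f hf
    exact hf.integrable_of_hasCompactSupport (HasCompactSupport.of_compactSpace f)
  have hn1 : (0 : ℝ) ≤ (n : ℝ) - 1 := by
    have : (3 : ℝ) ≤ n := by exact_mod_cast hn
    linarith
  have key := hNB n e P N T k ψ 2 hn he hP hN hzP hzN hG (by norm_num) hψ.contDiffOn (fun t _ => hkd t) hk0
    (by
      intro t ht
      have h1 : (0 : ℝ) ≤ 1 - t ^ 2 := by nlinarith [ht.1, ht.2]
      have := mul_nonneg h1 (h0 t)
      have := hk0 t ht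
      linarith)
  rw [integral_add (hInt N hN _ hA) (hInt N hN _ hK'), integral_add (hInt P hP _ hA) (hInt P hP _ hK'),
    integral_const_mul, integral_const_mul] at key
  have h1 : 0 ≤ ∫ w : sphere (0 : E n) 1, k (inner ℝ e (w : E n)) ∂N :=
    integral_nonneg fun w => hk0 _ (hmem w)
  have h2 : ∫ w : sphere (0 : E n) 1, k (inner ℝ e (w : E n)) ∂P ≤ (P univ).toReal * c := by
    have h3 : ∫ w : sphere (0 : E n) 1, k (inner ℝ e (w : E n)) ∂P ≤ ∫ _w : sphere (0 : E n) 1, c ∂P :=
      integral_mono (hInt P hP _ hK) (integrable_const c) fun w => hk1 _ (hmem w)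
    rw [integral_const, smul_eq_mul] at h3
    exact h3
  have h4 := mul_nonneg hn1 h1
  have h5 := mul_le_mul_of_nonneg_left h2 hn1
  rw [← mul_assoc] at h5
  linarith

end Pool.Agent.Helper66.PM
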